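import Pool.Agent.Work.MP_faea85_an.Defs

set_option autoImplicit false

namespace Pool.Agent.Work.MPfaea85

open Filter Topology

variable {𝕜 X : Type*} [RCLike 𝕜] [NormedAddCommGroup X] [NormedSpace 𝕜 X]

lemma flip_injective : Function.Injective (topDualPairing 𝕜 X).flip := by
  intro x y h
  by_contra hne
  obtain ⟨f, hf⟩ := SeparatingDual.exists_separating_of_ne (R := 𝕜) hne
  exact hf (LinearMap.congr_fun h f)

lemma tendsto_toWeakSpace {u : ℕ → X} {a : X}
    (h : ∀ φ : X →L[𝕜] 𝕜, Tendsto (fun n => φ (u n)) atTop (𝓝 (φ a))) :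
    Tendsto (fun n => toWeakSpace 𝕜 X (u n)) atTop (𝓝 (toWeakSpace 𝕜 X a)) :=
  (WeakBilin.tendsto_iff_forall_eval_tendsto _ flip_injective).2 h

/-- A weakly sequentially closed set containing a sequence with dense range in the norm topology
is everything. -/
lemma eq_univ_of_dense {M : Set (WeakSpace 𝕜 X)} (hM : IsSeqClosed M) {ι : Type*} (y : ι → X)
    (hy : DenseRange y) (h : ∀ i, toWeakSpace 𝕜 X (y i) ∈ M) : M = Set.univ := by
  rw [Set.eq_univ_iff_forall]
  intro a
  obtain ⟨a, rfl⟩ := (toWeakSpace 𝕜 X).surjective a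
  have ha : a ∈ closure (Set.range y) := hy a
  rw [mem_closure_iff_seq_limit] at ha
  obtain ⟨u, hu, hua⟩ := ha
  refine hM (x := fun n => toWeakSpace 𝕜 X (u n)) ?_ (tendsto_toWeakSpace fun φ => ?_)
  · intro n
    obtain ⟨i, hi⟩ := hu n
    rw [← hi]
    exact h i
  · exact (φ.continuous.tendsto a).comp hua

/-- The key assembly lemma: if dense many targets `y t` are weak limits of `T^{m j} (v t j)` with
`v t j → 0` and every `v t j` is killed by a power of `T`, then `T` is weakly sequentially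
hypercyclic. -/
theorem wsh_of_criterion [CompleteSpace X] (T : X →L[𝕜] X) (y : ℕ → X) (hy : DenseRange y)
    (v : ℕ → ℕ → X) (m : ℕ → ℕ) (hm : Tendsto m atTop atTop)
    (hv : ∀ t, Tendsto (v t) atTop (𝓝 0))
    (hk : ∀ t j, ∃ N, ∀ n ≥ N, (T ^ n) (v t j) = 0)
    (hw : ∀ t (φ : X →L[𝕜] 𝕜), Tendsto (fun j => φ ((T ^ m j) (v t j))) atTop (𝓝 (φ (y t)))) :
    WeaklySeqHypercyclic T := by
  classical
  set c : ℝ := max 1 ‖T‖ with hc
  have hc1 : 1 ≤ c := le_max_left _ _
  have hcpos : 0 < c := lt_of_lt_of_le one_pos hc1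
  have hTn : ∀ (n : ℕ) (z : X), ‖(T ^ n) z‖ ≤ c ^ n * ‖z‖ := by
    intro n z
    induction n with
    | zero => simp
    | succ n ih =>
      rw [pow_succ']
      have h1 : (T * T ^ n) z = T ((T ^ n) z) := rfl
      rw [h1]
      calc ‖T ((T ^ n) z)‖ ≤ ‖T‖ * ‖(T ^ n) z‖ := T.le_opNorm _
        _ ≤ c * (c ^ n * ‖z‖) := by
            gcongr
            exact le_max_right _ _
        _ = c ^ (n + 1) * ‖z‖ := by ring
  choose kill hkill using hk
  -- the target of stage `s`
  set tt : ℕ → ℕ := fun s => (Nat.unpair s).1 with htt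
  have hpick : ∀ s M : ℕ, ∃ j, s ≤ j ∧ M ≤ m j ∧ c ^ M * ‖v (tt s) j‖ ≤ (1 / 2) ^ s := by
    intro s M
    have h1 : ∀ᶠ j in atTop, s ≤ j := eventually_ge_atTop s
    have h2 : ∀ᶠ j in atTop, M ≤ m j := hm.eventually_ge_atTop M
    have h3 : Tendsto (fun j => c ^ M * ‖v (tt s) j‖) atTop (𝓝 0) := by
      have := ((hv (tt s)).norm).const_mul (c ^ M)
      simpa using this
    have h4 : ∀ᶠ j in atTop, c ^ M * ‖v (tt s) j‖ ≤ (1 / 2) ^ s :=
      h3.eventually_le_const (by positivity)
    obtain ⟨j, hj⟩ := (h1.and (h2.and h4)).exists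
    exact ⟨j, hj⟩
  choose pick hp1 hp2 hp3 using hpick
  -- the state
  let St : ℕ → ℕ := fun s => Nat.rec 0
    (fun s M => max M (max (m (pick s M)) (kill (tt s) (pick s M)))) s
  set jj : ℕ → ℕ := fun s => pick s (St s) with hjj
  have hSt : ∀ s, St (s + 1) = max (St s) (max (m (jj s)) (kill (tt s) (jj s))) := fun s => rfl
  have hStmono : Monotone St := monotone_nat_of_le_succ fun s => by
    rw [hSt]; exact le_max_left _ _
  set w : ℕ → X := fun s => v (tt s) (jj s) with hw'
  set mm : ℕ → ℕ := fun s => m (jj s) with hmm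
  have hmm1 : ∀ s, St s ≤ mm s := fun s => hp2 s (St s)
  have hmm2 : ∀ s, mm s ≤ St (s + 1) := fun s => by
    rw [hSt]; exact (le_max_left _ _).trans (le_max_right _ _)
  have hkl : ∀ s, kill (tt s) (jj s) ≤ St (s + 1) := fun s => by
    rw [hSt]; exact (le_max_right _ _).trans (le_max_right _ _)
  have hwn : ∀ s, c ^ St s * ‖w s‖ ≤ (1 / 2) ^ s := fun s => hp3 s (St s)
  have hwn' : ∀ s, ‖w s‖ ≤ (1 / 2) ^ s := fun s => by
    refine le_trans ?_ (hwn s)
    have : 1 ≤ c ^ St s := one_le_pow₀ hc1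
    nlinarith [norm_nonneg (w s)]
  have hsumm : Summable w :=
    Summable.of_norm_bounded (g := fun s => ((1:ℝ) / 2) ^ s) summable_geometric_two hwn'
  set x : X := ∑' s, w s with hx
  -- the main estimate
  have main : ∀ s, ‖(T ^ mm s) x - (T ^ mm s) (w s)‖ ≤ (1 / 2) ^ s := by
    intro s
    have e1 : x = ∑ i ∈ Finset.range s, w i + (w s + ∑' i, w (i + (s + 1))) := by
      rw [hx, ← hsumm.sum_add_tsum_nat_add (s + 1), Finset.sum_range_succ]
      abel
    have e2 : (T ^ mm s) (∑ i ∈ Finset.range s, w i) = 0 := by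
      rw [map_sum]
      apply Finset.sum_eq_zero
      intro i hi
      have hi' := Finset.mem_range.1 hi
      apply hkill
      calc kill (tt i) (jj i) ≤ St (i + 1) := hkl i
        _ ≤ St s := hStmono hi'
        _ ≤ mm s := hmm1 s
    have hs2 : Summable (fun i => w (i + (s + 1))) := (summable_nat_add_iff (s + 1)).2 hsumm
    have e3 : (T ^ mm s) x - (T ^ mm s) (w s) = ∑' i, (T ^ mm s) (w (i + (s + 1))) := by
      rw [e1, map_add, map_add, e2, (T ^ mm s).map_tsum hs2]
      abel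
    rw [e3]
    have e4 : ∀ i, ‖(T ^ mm s) (w (i + (s + 1)))‖ ≤ (1 / 2) ^ (i + (s + 1)) := by
      intro i
      refine (hTn _ _).trans (le_trans ?_ (hwn (i + (s + 1))))
      apply mul_le_mul_of_nonneg_right _ (norm_nonneg _)
      apply pow_le_pow_right₀ hc1
      exact (hmm2 s).trans (hStmono (show s + 1 ≤ i + (s + 1) by omega))
    have hg : HasSum (fun i : ℕ => ((1:ℝ) / 2) ^ (i + (s + 1))) ((1 / 2) ^ s) := by
      have h1 := hasSum_geometric_two.mul_right (((1:ℝ) / 2) ^ (s + 1))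
      have h2 : (2:ℝ) * (1 / 2) ^ (s + 1) = (1 / 2) ^ s := by rw [pow_succ]; ring
      rw [h2] at h1
      have h3 : (fun i : ℕ => ((1:ℝ) / 2) ^ (i + (s + 1))) =
          fun i => (1 / 2) ^ i * (1 / 2) ^ (s + 1) := by
        ext i; rw [pow_add]
      rw [h3]
      exact h1
    exact tsum_of_norm_bounded hg e4
  -- conclusion
  refine ⟨x, ?_⟩
  rw [Set.eq_univ_iff_forall]
  intro a
  rw [seqClosureSet, Set.mem_sInter]
  rintro M ⟨hM, hsub⟩
  have hall := eq_univ_of_dense hM y hy (fun t => ?_)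
  · rw [hall]; trivial
  set ss : ℕ → ℕ := fun i => Nat.pair t i with hss
  have htts : ∀ i, tt (ss i) = t := fun i => by simp [htt, hss]
  have hssi : ∀ i, i ≤ ss i := fun i => Nat.right_le_pair t i
  refine hM (x := fun i => toWeakSpace 𝕜 X ((T ^ mm (ss i)) x)) ?_
    (tendsto_toWeakSpace fun φ => ?_)
  · intro i
    exact hsub ⟨_, ⟨mm (ss i), rfl⟩, rfl⟩
  · have h1 : Tendsto (fun i => φ ((T ^ mm (ss i)) (w (ss i)))) atTop (𝓝 (φ (y t))) := by
      have h2 : Tendsto (fun i => jj (ss i)) atTop atTop := by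
        refine tendsto_atTop_mono (fun i => ?_) tendsto_id
        exact (hssi i).trans (hp1 (ss i) (St (ss i)))
      have h3 := (hw t φ).comp h2
      refine h3.congr fun i => ?_
      simp only [Function.comp, hmm, hw', htts]
    have h4 : Tendsto (fun i => (T ^ mm (ss i)) x - (T ^ mm (ss i)) (w (ss i))) atTop (𝓝 0) := by
      rw [tendsto_zero_iff_norm_tendsto_zero]
      refine squeeze_zero (fun _ => norm_nonneg _) (fun i => main (ss i)) ?_
      have h5 : Tendsto ss atTop atTop := tendsto_atTop_mono hssi tendsto_id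
      exact (tendsto_pow_atTop_nhds_zero_of_lt_one (by norm_num) (by norm_num)).comp h5
    have h6 := ((φ.continuous.tendsto 0).comp h4).add h1
    rw [map_zero, zero_add] at h6
    refine h6.congr fun i => ?_
    simp only [Function.comp, map_sub]
    ring

end Pool.Agent.Work.MPfaea85
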