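import Mathlib

set_option autoImplicit false

namespace Pool.Agent.Work.MPfaea85

/-- The orbit `{T^n x : n ≥ 0}` of `x` under the bounded operator `T`. -/
def orbit {𝕜 X : Type*} [RCLike 𝕜] [NormedAddCommGroup X] [NormedSpace 𝕜 X]
    (T : X →L[𝕜] X) (x : X) : Set X :=
  Set.range fun n : ℕ => (T ^ n) x

/-- `T` is hypercyclic: some orbit is dense in the norm topology. -/
def Hypercyclic {𝕜 X : Type*} [RCLike 𝕜] [NormedAddCommGroup X] [NormedSpace 𝕜 X]
    (T : X →L[𝕜] X) : Prop :=
  ∃ x, Dense (orbit T x)

/-- The sequential closure of `A` in a topological space: the smallest sequentially closed set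
containing `A`. -/
def seqClosureSet {Y : Type*} [TopologicalSpace Y] (A : Set Y) : Set Y :=
  ⋂₀ {M : Set Y | IsSeqClosed M ∧ A ⊆ M}

/-- `T` is weakly sequentially hypercyclic: for some `x`, the sequential closure of the orbit of
`x` with respect to the weak topology is the whole space. -/
def WeaklySeqHypercyclic {𝕜 X : Type*} [RCLike 𝕜] [NormedAddCommGroup X] [NormedSpace 𝕜 X]
    (T : X →L[𝕜] X) : Prop :=
  ∃ x, seqClosureSet (toWeakSpace 𝕜 X '' orbit T x) = Set.univ

end Pool.Agent.Work.MPfaea85
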