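import Pool.Agent.Work.MP_faea85_an.Criterion

set_option autoImplicit false

namespace Pool.Agent.Work.MPfaea85

open Filter Topology

/-! ### The schedule -/

/-- The index of the dyadic block containing the level `n`. -/
def kap (n : ℕ) : ℕ := Nat.log 2 n

/-- A tent function on every dyadic block. -/
def hgt (n : ℕ) : ℕ := min (n - 2 ^ kap n) (2 ^ (kap n + 1) - 1 - n)

lemma hgt_step (n : ℕ) : (kap (n + 1) = kap n ∧
    (hgt (n + 1) = hgt n ∨ hgt (n + 1) = hgt n + 1 ∨ hgt n = hgt (n + 1) + 1)) ∨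
    (hgt n = 0 ∧ hgt (n + 1) = 0) := by
  rcases Nat.eq_zero_or_pos n with rfl | hn
  · right
    simp [hgt, kap]
  · have h1 : 2 ^ kap n ≤ n := Nat.pow_log_le_self 2 hn.ne'
    have h2 : n < 2 ^ (kap n + 1) := Nat.lt_pow_succ_log_self (by norm_num) n
    have h3 : 2 ^ (kap n + 1) = 2 * 2 ^ kap n := by rw [pow_succ]; ring
    rcases Nat.lt_or_ge (n + 1) (2 ^ (kap n + 1)) with h | h
    · left
      have h4 : kap (n + 1) = kap n := by
        apply Nat.log_eq_of_pow_le_of_lt_pow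
        · omega
        · exact h
      refine ⟨h4, ?_⟩
      unfold hgt
      rw [h4]
      generalize 2 ^ (kap n + 1) = B at *
      generalize 2 ^ kap n = A at *
      omega
    · right
      have h5 : n + 1 = 2 ^ (kap n + 1) := by omega
      have h4 : kap (n + 1) = kap n + 1 := by
        rw [h5]; unfold kap; exact Nat.log_pow (by norm_num) _
      unfold hgt
      rw [h4, h5]
      constructor
      · omega
      · simp

lemma kap_mid {j i : ℕ} (hi : i < 2 ^ j) : kap (3 * 2 ^ j + i) = j + 1 := by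
  apply Nat.log_eq_of_pow_le_of_lt_pow
  · rw [pow_succ]; omega
  · rw [pow_succ, pow_succ]; omega

lemma hgt_mid {j i : ℕ} (hi : i < 2 ^ j) : hgt (3 * 2 ^ j + i) = 2 ^ j - 1 - i := by
  unfold hgt
  rw [kap_mid hi]
  have : 2 ^ (j + 1) = 2 * 2 ^ j := by rw [pow_succ]; ring
  have h' : 2 ^ (j + 1 + 1) = 4 * 2 ^ j := by rw [pow_succ, pow_succ]; ring
  rw [this, h']
  omega

/-! ### The operators on the fibre -/

section fibre

variable {𝕜 E : Type*} [RCLike 𝕜] [NormedAddCommGroup E] [InnerProductSpace 𝕜 E] (b : ℕ → E)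

/-- The functional `z ↦ ⟪b_0 + b_{j+1}, z⟫`. -/
noncomputable def Phi (j : ℕ) : E →L[𝕜] 𝕜 := innerSL 𝕜 (b 0 + b (j + 1))

/-- The rank-one idempotent `z ↦ Φ_j(z) b_{j+1}`. -/
noncomputable def Cop (j : ℕ) : E →L[𝕜] E := (Phi (𝕜 := 𝕜) b j).smulRight (b (j + 1))

/-- `c I + (1 - c) C_j`. -/
noncomputable def Lop (c : 𝕜) (j : ℕ) : E →L[𝕜] E := c • 1 + (1 - c) • Cop b j

lemma Phi_apply (j : ℕ) (z : E) : Phi (𝕜 := 𝕜) b j z = inner 𝕜 (b 0 + b (j + 1)) z := rfl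

lemma Cop_apply (j : ℕ) (z : E) : Cop (𝕜 := 𝕜) b j z = Phi (𝕜 := 𝕜) b j z • b (j + 1) := rfl

lemma Lop_apply (c : 𝕜) (j : ℕ) (z : E) :
    Lop b c j z = c • z + (1 - c) • Cop (𝕜 := 𝕜) b j z := rfl

variable {b}
variable (hb : Orthonormal 𝕜 b)
include hb

lemma Phi_b0 (j : ℕ) : Phi (𝕜 := 𝕜) b j (b 0) = 1 := by
  rw [Phi_apply, inner_add_left, orthonormal_iff_ite.1 hb, orthonormal_iff_ite.1 hb]
  simp

lemma Phi_b (j : ℕ) : Phi (𝕜 := 𝕜) b j (b (j + 1)) = 1 := by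
  rw [Phi_apply, inner_add_left, orthonormal_iff_ite.1 hb, orthonormal_iff_ite.1 hb]
  simp

lemma norm_Phi_le (j : ℕ) (z : E) : ‖Phi (𝕜 := 𝕜) b j z‖ ≤ 2 * ‖z‖ := by
  rw [Phi_apply]
  refine (norm_inner_le_norm _ _).trans ?_
  gcongr
  refine (norm_add_le _ _).trans ?_
  rw [hb.1, hb.1]; norm_num

lemma norm_Cop_le (j : ℕ) (z : E) : ‖Cop (𝕜 := 𝕜) b j z‖ ≤ 2 * ‖z‖ := by
  rw [Cop_apply, norm_smul, hb.1, mul_one]
  exact norm_Phi_le hb j z

lemma Phi_Cop (j : ℕ) (z : E) : Phi (𝕜 := 𝕜) b j (Cop (𝕜 := 𝕜) b j z) = Phi (𝕜 := 𝕜) b j z := by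
  rw [Cop_apply, map_smul, Phi_b hb, smul_eq_mul, mul_one]

lemma Cop_Cop (j : ℕ) (z : E) : Cop (𝕜 := 𝕜) b j (Cop (𝕜 := 𝕜) b j z) = Cop (𝕜 := 𝕜) b j z := by
  rw [Cop_apply, Phi_Cop hb, Cop_apply]

lemma Lop_Lop (c d : 𝕜) (j : ℕ) (z : E) : Lop b c j (Lop b d j z) = Lop b (c * d) j z := by
  simp only [Lop_apply, map_add, map_smul, Cop_Cop hb]
  module

lemma Phi_Lop (c : 𝕜) (j : ℕ) (z : E) : Phi (𝕜 := 𝕜) b j (Lop b c j z) = Phi (𝕜 := 𝕜) b j z := by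
  simp only [Lop_apply, map_add, map_smul, Phi_Cop hb, smul_eq_mul]
  ring

/-- `Lop c j` multiplies `(I - C_j) z` by `c`. -/
lemma Lop_sub_Cop (c : 𝕜) (j : ℕ) (z : E) :
    Lop b c j (z - Cop (𝕜 := 𝕜) b j z) = c • (z - Cop (𝕜 := 𝕜) b j z) := by
  simp only [Lop_apply, map_sub, Cop_Cop hb]
  module

lemma norm_Lop_le (c : 𝕜) (j : ℕ) (z : E) : ‖Lop b c j z‖ ≤ (‖c‖ + ‖1 - c‖ * 2) * ‖z‖ := by
  rw [Lop_apply]
  refine (norm_add_le _ _).trans ?_
  rw [norm_smul, norm_smul]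
  have := norm_Cop_le hb j z
  have h2 : ‖1 - c‖ * ‖Cop (𝕜 := 𝕜) b j z‖ ≤ ‖1 - c‖ * (2 * ‖z‖) := by gcongr
  linarith

omit hb in
lemma Lop_one (j : ℕ) (z : E) : Lop b (1 : 𝕜) j z = z := by
  simp [Lop_apply]

/-- orthonormal sequences are weakly null -/
lemma weak_null [CompleteSpace E] (φ : E →L[𝕜] 𝕜) : Tendsto (fun j => φ (b j)) atTop (𝓝 0) := by
  set u := (InnerProductSpace.toDual 𝕜 E).symm φ with hu
  have h1 : ∀ z, φ z = inner 𝕜 u z := fun z => by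
    rw [hu, InnerProductSpace.toDual_symm_apply]
  have h2 := (hb.inner_products_summable (x := u)).tendsto_atTop_zero
  rw [tendsto_zero_iff_norm_tendsto_zero]
  have h3 : Tendsto (fun j => Real.sqrt (‖(inner 𝕜 (b j) u : 𝕜)‖ ^ 2)) atTop (𝓝 0) := by
    have := (Real.continuous_sqrt.tendsto 0).comp h2
    rw [Real.sqrt_zero] at this
    exact this
  refine h3.congr fun j => ?_
  rw [Real.sqrt_sq (norm_nonneg _), h1, norm_inner_symm]

lemma Cop_weak_null [CompleteSpace E] (z : E) (φ : E →L[𝕜] 𝕜) :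
    Tendsto (fun j => φ (Cop (𝕜 := 𝕜) b j z)) atTop (𝓝 0) := by
  have h1 : Tendsto (fun j => φ (b (j + 1))) atTop (𝓝 0) :=
    (weak_null hb φ).comp (tendsto_add_atTop_nat 1)
  rw [tendsto_zero_iff_norm_tendsto_zero] at h1 ⊢
  refine squeeze_zero (fun _ => norm_nonneg _) (fun j => ?_)
    (by simpa using h1.const_mul (2 * ‖z‖))
  rw [Cop_apply, map_smul, norm_smul]
  gcongr
  exact norm_Phi_le hb j z

end fibre

/-! ### The fibre operators along the levels -/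

section levels

variable {𝕜 E : Type*} [RCLike 𝕜] [NormedAddCommGroup E] [InnerProductSpace 𝕜 E] (b : ℕ → E)

variable (𝕜) in
/-- The scalars `V_n = 2 ^ hgt n`. -/
noncomputable def V (n : ℕ) : 𝕜 := 2 ^ hgt n

variable (𝕜) in
lemma V_ne (n : ℕ) : V 𝕜 n ≠ 0 := pow_ne_zero _ two_ne_zero

variable (𝕜) in
/-- `P_n = V_n I + (1 - V_n) C_{kap n}`. -/
noncomputable def P (n : ℕ) : E →L[𝕜] E := Lop b (V 𝕜 n) (kap n)

variable (𝕜) in
/-- The inverse of `P_n`. -/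
noncomputable def R (n : ℕ) : E →L[𝕜] E := Lop b (V 𝕜 n)⁻¹ (kap n)

variable {b}
variable (hb : Orthonormal 𝕜 b)
include hb

lemma R_P (n : ℕ) (z : E) : R 𝕜 b n (P 𝕜 b n z) = z := by
  unfold R P
  rw [Lop_Lop hb, inv_mul_cancel₀ (V_ne 𝕜 n), Lop_one]

lemma P_R (n : ℕ) (z : E) : P 𝕜 b n (R 𝕜 b n z) = z := by
  unfold R P
  rw [Lop_Lop hb, mul_inv_cancel₀ (V_ne 𝕜 n), Lop_one]

lemma norm_A_le (n : ℕ) (z : E) : ‖R 𝕜 b n (P 𝕜 b (n + 1) z)‖ ≤ 4 * ‖z‖ := by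
  rcases hgt_step n with ⟨hk, h⟩ | ⟨h0, h1⟩
  · unfold R P
    rw [hk, Lop_Lop hb]
    refine (norm_Lop_le hb _ _ _).trans ?_
    gcongr
    have h2 : ‖(2:𝕜)‖ = 2 := RCLike.norm_ofNat 2
    unfold V
    rcases h with h | h | h
    · rw [h, inv_mul_cancel₀ (pow_ne_zero _ two_ne_zero)]
      simp
    · rw [h, pow_succ, ← mul_assoc, inv_mul_cancel₀ (pow_ne_zero _ two_ne_zero), one_mul, h2]
      have : ‖(1:𝕜) - 2‖ = 1 := by
        rw [show (1:𝕜) - 2 = -1 by norm_num, norm_neg, norm_one]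
      rw [this]; norm_num
    · have e : ((2:𝕜) ^ hgt n)⁻¹ * 2 ^ hgt (n + 1) = 2⁻¹ := by
        rw [h, pow_succ]
        field_simp
      rw [e, norm_inv, h2]
      have : ‖(1:𝕜) - 2⁻¹‖ = 2⁻¹ := by
        rw [show (1:𝕜) - 2⁻¹ = 2⁻¹ by norm_num, norm_inv, h2]
      rw [this]; norm_num
  · unfold R P V
    rw [h0, h1]
    simp only [pow_zero, inv_one, Lop_one]
    linarith [norm_nonneg z]

end levels

/-! ### Operator-weighted backward shifts -/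

section shift

variable {𝕜 E : Type*} [RCLike 𝕜] [NormedAddCommGroup E] [NormedSpace 𝕜 E]

lemma shift_sum_le {A : ℕ → E →L[𝕜] E} (hA : ∀ n z, ‖A n z‖ ≤ 4 * ‖z‖)
    (x : lp (fun _ : ℕ => E) 2) (s : Finset ℕ) :
    ∑ i ∈ s, ‖A i (x (i + 1))‖ ^ (2 : ENNReal).toReal ≤ (4 * ‖x‖) ^ (2 : ENNReal).toReal := by
  have h2 : (2 : ENNReal).toReal = 2 := by norm_num
  have h3 := lp.sum_rpow_le_norm_rpow (p := 2) (by norm_num) x (s.map (addRightEmbedding 1))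
  rw [Finset.sum_map] at h3
  rw [Real.mul_rpow (by norm_num) (norm_nonneg _)]
  calc ∑ i ∈ s, ‖A i (x (i + 1))‖ ^ (2 : ENNReal).toReal
      ≤ ∑ i ∈ s, (4 * ‖x (i + 1)‖) ^ (2 : ENNReal).toReal := by
        gcongr with i _
        exact hA i _
    _ = 4 ^ (2 : ENNReal).toReal * ∑ i ∈ s, ‖x (i + 1)‖ ^ (2 : ENNReal).toReal := by
        rw [Finset.mul_sum]
        apply Finset.sum_congr rfl
        intro i _
        rw [Real.mul_rpow (by norm_num) (norm_nonneg _)]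
    _ ≤ 4 ^ (2 : ENNReal).toReal * ‖x‖ ^ (2 : ENNReal).toReal := by
        gcongr
        exact h3

/-- `(T x)_n = A_n x_{n+1}` on `ℓ²(ℕ; E)`. -/
noncomputable def bshift (A : ℕ → E →L[𝕜] E) (hA : ∀ n z, ‖A n z‖ ≤ 4 * ‖z‖) :
    lp (fun _ : ℕ => E) 2 →L[𝕜] lp (fun _ : ℕ => E) 2 :=
  LinearMap.mkContinuous
    { toFun := fun x => ⟨fun n => A n (x (n + 1)), memℓp_gen' (shift_sum_le hA x)⟩
      map_add' := fun x y => by
        ext n
        exact map_add (A n) (x (n + 1)) (y (n + 1))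
      map_smul' := fun c x => by
        ext n
        exact map_smul (A n) c (x (n + 1)) } 4
    (fun x => lp.norm_le_of_forall_sum_le (by norm_num) (by positivity) (shift_sum_le hA x))

lemma bshift_apply (A : ℕ → E →L[𝕜] E) (hA : ∀ n z, ‖A n z‖ ≤ 4 * ‖z‖)
    (x : lp (fun _ : ℕ => E) 2) (n : ℕ) : bshift A hA x n = A n (x (n + 1)) := rfl

end shift

end Pool.Agent.Work.MPfaea85
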