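import Pool.Agent.Work.MP_faea85_an.Example

set_option autoImplicit false

namespace Pool.Agent.Work.MPfaea85

open Filter Topology

variable {𝕜 E : Type*} [RCLike 𝕜] [NormedAddCommGroup E] [InnerProductSpace 𝕜 E] {b : ℕ → E}

/-- The operator of the example. -/
noncomputable def T (hb : Orthonormal 𝕜 b) : lp (fun _ : ℕ => E) 2 →L[𝕜] lp (fun _ : ℕ => E) 2 :=
  bshift (fun n => (R 𝕜 b n).comp (P 𝕜 b (n + 1))) (norm_A_le hb)

lemma T_apply (hb : Orthonormal 𝕜 b) (x : lp (fun _ : ℕ => E) 2) (n : ℕ) :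
    T hb x n = R 𝕜 b n (P 𝕜 b (n + 1) (x (n + 1))) := rfl

lemma P_T_pow (hb : Orthonormal 𝕜 b) (m : ℕ) (x : lp (fun _ : ℕ => E) 2) (n : ℕ) :
    P 𝕜 b n ((T hb ^ m) x n) = P 𝕜 b (n + m) (x (n + m)) := by
  induction m generalizing n with
  | zero => simp
  | succ m ih =>
    rw [pow_succ']
    have h1 : (T hb * T hb ^ m) x = T hb ((T hb ^ m) x) := rfl
    rw [h1, T_apply, P_R hb, ih (n + 1)]
    have h2 : n + 1 + m = n + (m + 1) := by omega
    rw [h2]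

lemma T_pow (hb : Orthonormal 𝕜 b) (m : ℕ) (x : lp (fun _ : ℕ => E) 2) (n : ℕ) :
    (T hb ^ m) x n = R 𝕜 b n (P 𝕜 b (n + m) (x (n + m))) := by
  rw [← P_T_pow hb, R_P hb]

/-- The obstruction to norm hypercyclicity. -/
lemma Phi_T_pow (hb : Orthonormal 𝕜 b) (m : ℕ) (x : lp (fun _ : ℕ => E) 2) :
    ‖Phi (𝕜 := 𝕜) b (kap m) ((T hb ^ m) x 0)‖ ≤ 2 * ‖x‖ := by
  have h1 : P 𝕜 b 0 ((T hb ^ m) x 0) = (T hb ^ m) x 0 := by
    have : V 𝕜 0 = 1 := by simp [V, hgt, kap]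
    unfold P
    rw [this, Lop_one]
  have h2 := P_T_pow hb m x 0
  rw [h1, zero_add] at h2
  rw [h2]
  unfold P
  rw [Phi_Lop hb]
  refine (norm_Phi_le hb _ _).trans ?_
  gcongr
  exact lp.norm_apply_le_norm (by norm_num) x m

theorem not_hypercyclic (hb : Orthonormal 𝕜 b) : ¬ Hypercyclic (T hb) := by
  rintro ⟨x, hx⟩
  set lam : 𝕜 := ((2 * ‖x‖ + 3 : ℝ) : 𝕜) with hlam
  set y : lp (fun _ : ℕ => E) 2 := lp.single 2 0 (lam • b 0) with hy
  have h1 := hx y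
  rw [Metric.mem_closure_iff] at h1
  obtain ⟨z, ⟨m, rfl⟩, hz⟩ := h1 1 one_pos
  simp only at hz
  rw [dist_eq_norm] at hz
  have h2 := Phi_T_pow hb m x
  have h3 : Phi (𝕜 := 𝕜) b (kap m) (y 0) = lam := by
    rw [hy, lp.single_apply_self, map_smul, Phi_b0 hb, smul_eq_mul, mul_one]
  have h4 : ‖Phi (𝕜 := 𝕜) b (kap m) ((y - (T hb ^ m) x) 0)‖ ≤ 2 * 1 := by
    refine (norm_Phi_le hb _ _).trans ?_
    gcongr
    exact (lp.norm_apply_le_norm (by norm_num) _ 0).trans hz.le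
  have h5 : Phi (𝕜 := 𝕜) b (kap m) ((y - (T hb ^ m) x) 0) =
      lam - Phi (𝕜 := 𝕜) b (kap m) ((T hb ^ m) x 0) := by
    rw [← h3, ← map_sub]; rfl
  rw [h5] at h4
  have h6 : ‖lam‖ = 2 * ‖x‖ + 3 := by
    rw [hlam, RCLike.norm_ofReal, abs_of_nonneg (by positivity)]
  have h7 : ‖lam‖ ≤ ‖lam - Phi (𝕜 := 𝕜) b (kap m) ((T hb ^ m) x 0)‖ +
      ‖Phi (𝕜 := 𝕜) b (kap m) ((T hb ^ m) x 0)‖ := by
    simpa using norm_add_le (lam - Phi (𝕜 := 𝕜) b (kap m) ((T hb ^ m) x 0))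
      (Phi (𝕜 := 𝕜) b (kap m) ((T hb ^ m) x 0))
  linarith

/-- The middle of the `(j+1)`-st block. -/
def mid (j : ℕ) : ℕ := 3 * 2 ^ j

/-- The targets which can be reached weakly from small vectors at the times `mid j`. -/
def targets (hb : Orthonormal 𝕜 b) : Submodule 𝕜 (lp (fun _ : ℕ => E) 2) where
  carrier := {y | ∃ v : ℕ → lp (fun _ : ℕ => E) 2, Tendsto v atTop (𝓝 0) ∧
    (∀ j, ∃ N, ∀ n ≥ N, (T hb ^ n) (v j) = 0) ∧
    ∀ φ : lp (fun _ : ℕ => E) 2 →L[𝕜] 𝕜,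
      Tendsto (fun j => φ ((T hb ^ mid j) (v j))) atTop (𝓝 (φ y))}
  zero_mem' := ⟨fun _ => 0, tendsto_const_nhds, fun _ => ⟨0, fun _ _ => map_zero _⟩,
    fun φ => by simp⟩
  add_mem' := by
    rintro y y' ⟨v, h1, h2, h3⟩ ⟨v', h1', h2', h3'⟩
    refine ⟨fun j => v j + v' j, by simpa using h1.add h1', fun j => ?_, fun φ => ?_⟩
    · obtain ⟨N, hN⟩ := h2 j
      obtain ⟨N', hN'⟩ := h2' j
      refine ⟨max N N', fun n hn => ?_⟩
      rw [map_add, hN n ((le_max_left _ _).trans hn), hN' n ((le_max_right _ _).trans hn),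
        add_zero]
    · simp only [map_add]
      exact (h3 φ).add (h3' φ)
  smul_mem' := by
    rintro c y ⟨v, h1, h2, h3⟩
    refine ⟨fun j => c • v j, by simpa using h1.const_smul c, fun j => ?_, fun φ => ?_⟩
    · obtain ⟨N, hN⟩ := h2 j
      refine ⟨N, fun n hn => ?_⟩
      rw [map_smul, hN n hn, smul_zero]
    · simp only [map_smul]
      exact (h3 φ).const_smul c

lemma T_pow_single (hb : Orthonormal 𝕜 b) (m i : ℕ) (z : E) :
    (T hb ^ m) (lp.single 2 (m + i) z) = lp.single 2 i (R 𝕜 b i (P 𝕜 b (m + i) z)) := by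
  ext n
  rw [T_pow]
  rcases eq_or_ne n i with rfl | h
  · rw [lp.single_apply_self, add_comm n m, lp.single_apply_self]
  · rw [lp.single_apply_ne _ _ _ h, lp.single_apply_ne]
    · simp
    · omega

lemma T_pow_single_zero (hb : Orthonormal 𝕜 b) {m n : ℕ} (h : m < n) (z : E) :
    (T hb ^ n) (lp.single 2 m z) = 0 := by
  ext k
  rw [T_pow, lp.single_apply_ne]
  · simp
  · omega

lemma single_mem_targets [CompleteSpace E] (hb : Orthonormal 𝕜 b) (i : ℕ) (z : E) :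
    (lp.single 2 i z : lp (fun _ : ℕ => E) 2) ∈ targets hb := by
  set z' := P 𝕜 b i z with hz'
  refine ⟨fun j => lp.single 2 (mid j + i)
    ((V 𝕜 (mid j + i))⁻¹ • (z' - Cop (𝕜 := 𝕜) b (j + 1) z')), ?_, ?_, ?_⟩
  · -- the vectors tend to zero
    rw [tendsto_zero_iff_norm_tendsto_zero]
    have h1 : ∀ᶠ j in atTop, ‖(lp.single 2 (mid j + i)
        ((V 𝕜 (mid j + i))⁻¹ • (z' - Cop (𝕜 := 𝕜) b (j + 1) z')) : lp (fun _ : ℕ => E) 2)‖ ≤
        (1 / 2) ^ (2 ^ j - 1 - i) * (3 * ‖z'‖) := by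
      filter_upwards [eventually_gt_atTop i] with j hj
      have hj2 : i < 2 ^ j := hj.trans Nat.lt_two_pow_self
      rw [lp.norm_single (by norm_num), norm_smul]
      have h2 : ‖(V 𝕜 (mid j + i))⁻¹‖ = (1 / 2) ^ (2 ^ j - 1 - i) := by
        unfold V mid
        rw [hgt_mid hj2, norm_inv, norm_pow, RCLike.norm_ofNat]
        simp
      rw [h2]
      gcongr
      have := norm_Cop_le (𝕜 := 𝕜) hb (j + 1) z'
      have := norm_sub_le z' (Cop (𝕜 := 𝕜) b (j + 1) z')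
      linarith
    refine squeeze_zero' (Eventually.of_forall fun _ => norm_nonneg _) h1 ?_
    have h3 : Tendsto (fun j : ℕ => 2 ^ j - 1 - i) atTop atTop := by
      refine (tendsto_sub_atTop_nat i).comp ((tendsto_sub_atTop_nat 1).comp ?_)
      exact tendsto_pow_atTop_atTop_of_one_lt (by norm_num)
    have h4 : Tendsto (fun j : ℕ => ((1:ℝ) / 2) ^ (2 ^ j - 1 - i)) atTop (𝓝 0) :=
      (tendsto_pow_atTop_nhds_zero_of_lt_one (by norm_num) (by norm_num)).comp h3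
    simpa using h4.mul_const (3 * ‖z'‖)
  · intro j
    exact ⟨mid j + i + 1, fun n hn => T_pow_single_zero hb (by omega) _⟩
  · intro φ
    have h1 : ∀ᶠ j in atTop, φ ((T hb ^ mid j) (lp.single 2 (mid j + i)
        ((V 𝕜 (mid j + i))⁻¹ • (z' - Cop (𝕜 := 𝕜) b (j + 1) z')))) =
        φ (lp.single 2 i z) -
        ((φ.comp (lp.singleContinuousLinearMap 𝕜 (fun _ : ℕ => E) 2 i)).comp (R 𝕜 b i))
          (Cop (𝕜 := 𝕜) b (j + 1) z') := by
      filter_upwards [eventually_gt_atTop i] with j hj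
      have hj2 : i < 2 ^ j := hj.trans Nat.lt_two_pow_self
      rw [T_pow_single]
      have h2 : P 𝕜 b (mid j + i) ((V 𝕜 (mid j + i))⁻¹ • (z' - Cop (𝕜 := 𝕜) b (j + 1) z')) =
          z' - Cop (𝕜 := 𝕜) b (j + 1) z' := by
        rw [map_smul]
        have h3 : kap (mid j + i) = j + 1 := kap_mid hj2
        unfold P
        rw [h3, Lop_sub_Cop hb, smul_smul, inv_mul_cancel₀ (V_ne 𝕜 _), one_smul]
      rw [h2, map_sub, hz', R_P hb, lp.single_sub, map_sub]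
      rfl
    rw [tendsto_congr' h1]
    have h5 := (Cop_weak_null hb z' (((φ.comp (lp.singleContinuousLinearMap 𝕜
      (fun _ : ℕ => E) 2 i)).comp (R 𝕜 b i)))).comp (tendsto_add_atTop_nat 1)
    have h6 := (tendsto_const_nhds (x := φ (lp.single 2 i z))).sub h5
    rw [sub_zero] at h6
    exact h6

end Pool.Agent.Work.MPfaea85
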