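import Pool.Agent.Work.MP_faea85_an.Final

set_option autoImplicit false

namespace Pool.Agent.Work.MPfaea85

open Filter Topology

variable (𝕜 : Type*) [RCLike 𝕜]

/-- The standard unit vectors of `ℓ²(ℕ)`. -/
noncomputable def e (k : ℕ) : lp (fun _ : ℕ => 𝕜) 2 := lp.single 2 k (1 : 𝕜)

lemma e_orthonormal : Orthonormal 𝕜 (e 𝕜) := by
  rw [orthonormal_iff_ite]
  intro i j
  unfold e
  rw [lp.inner_single_left, lp.single_apply]
  rcases eq_or_ne i j with rfl | h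
  · simp
  · simp [h]

/-- The countable set of unit vectors of `ℓ²(ℕ; ℓ²(ℕ))`. -/
noncomputable def unitVec (p : ℕ × ℕ) : lp (fun _ : ℕ => lp (fun _ : ℕ => 𝕜) 2) 2 :=
  lp.single 2 p.1 (e 𝕜 p.2)

lemma span_dense : Dense ((Submodule.span 𝕜 (Set.range (unitVec 𝕜)) :
    Submodule 𝕜 (lp (fun _ : ℕ => lp (fun _ : ℕ => 𝕜) 2) 2)) :
    Set (lp (fun _ : ℕ => lp (fun _ : ℕ => 𝕜) 2) 2)) := by
  set W := Submodule.span 𝕜 (Set.range (unitVec 𝕜)) with hW
  have hcl : IsClosed (W.topologicalClosure : Set (lp (fun _ : ℕ => lp (fun _ : ℕ => 𝕜) 2) 2)) :=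
    W.isClosed_topologicalClosure
  have h1 : ∀ (i : ℕ) (z : lp (fun _ : ℕ => 𝕜) 2),
      (lp.single 2 i z : lp (fun _ : ℕ => lp (fun _ : ℕ => 𝕜) 2) 2) ∈ W.topologicalClosure := by
    intro i z
    have h2 := lp.hasSum_single (p := 2) (by norm_num) z
    have h3 := h2.mapL (lp.singleContinuousLinearMap 𝕜
      (fun _ : ℕ => lp (fun _ : ℕ => 𝕜) 2) 2 i)
    refine hcl.mem_of_tendsto h3 (Eventually.of_forall fun s => ?_)
    refine Submodule.sum_mem _ fun k _ => ?_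
    have h4 : lp.singleContinuousLinearMap 𝕜 (fun _ : ℕ => lp (fun _ : ℕ => 𝕜) 2) 2 i
        (lp.single 2 k (z k)) = z k • unitVec 𝕜 (i, k) := by
      rw [lp.singleContinuousLinearMap_apply]
      unfold unitVec e
      rw [← lp.single_smul, ← lp.single_smul, smul_eq_mul, mul_one]
    rw [h4]
    apply Submodule.smul_mem
    exact W.le_topologicalClosure (Submodule.subset_span ⟨(i, k), rfl⟩)
  intro x
  have h5 := lp.hasSum_single (p := 2) (by norm_num) x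
  have h6 : x ∈ W.topologicalClosure := by
    refine hcl.mem_of_tendsto h5 (Eventually.of_forall fun s => ?_)
    exact Submodule.sum_mem _ fun k _ => h1 k _
  exact h6

lemma exists_dense_seq : ∃ y : ℕ → lp (fun _ : ℕ => lp (fun _ : ℕ => 𝕜) 2) 2,
    DenseRange y ∧ ∀ t, y t ∈ Submodule.span 𝕜 (Set.range (unitVec 𝕜)) := by
  have hsep : TopologicalSpace.IsSeparable ((Submodule.span 𝕜 (Set.range (unitVec 𝕜)) :
      Submodule 𝕜 (lp (fun _ : ℕ => lp (fun _ : ℕ => 𝕜) 2) 2)) :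
      Set (lp (fun _ : ℕ => lp (fun _ : ℕ => 𝕜) 2) 2)) :=
    (Set.countable_range (unitVec 𝕜)).isSeparable.span
  obtain ⟨t, ht1, ht2, ht3⟩ := hsep.exists_countable_dense_subset
  have hd : Dense t := by
    rw [dense_iff_closure_eq]
    apply Set.eq_univ_of_univ_subset
    rw [← (span_dense 𝕜).closure_eq]
    exact closure_minimal ht3 isClosed_closure
  obtain ⟨y, hy⟩ := ht2.exists_eq_range hd.nonempty
  refine ⟨y, ?_, fun k => ht1 (by rw [hy]; exact ⟨k, rfl⟩)⟩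
  rw [DenseRange, ← hy]; exact hd

theorem wsh : WeaklySeqHypercyclic (T (e_orthonormal 𝕜)) := by
  obtain ⟨y, hy, hmem⟩ := exists_dense_seq 𝕜
  have hle : Submodule.span 𝕜 (Set.range (unitVec 𝕜)) ≤ targets (e_orthonormal 𝕜) := by
    rw [Submodule.span_le]
    rintro _ ⟨p, rfl⟩
    exact single_mem_targets (e_orthonormal 𝕜) p.1 _
  have h : ∀ t, ∃ v : ℕ → lp (fun _ : ℕ => lp (fun _ : ℕ => 𝕜) 2) 2, Tendsto v atTop (𝓝 0) ∧
    (∀ j, ∃ N, ∀ n ≥ N, (T (e_orthonormal 𝕜) ^ n) (v j) = 0) ∧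
    ∀ φ : lp (fun _ : ℕ => lp (fun _ : ℕ => 𝕜) 2) 2 →L[𝕜] 𝕜,
      Tendsto (fun j => φ ((T (e_orthonormal 𝕜) ^ mid j) (v j))) atTop (𝓝 (φ (y t))) :=
    fun t => hle (hmem t)
  choose v hv1 hv2 hv3 using h
  have hmid : Tendsto mid atTop atTop := by
    refine tendsto_atTop_mono (fun j => ?_) tendsto_id
    have h1 : j < 2 ^ j := Nat.lt_two_pow_self
    unfold mid
    simp only [id]
    omega
  exact wsh_of_criterion _ y hy v mid hmid hv1 hv2 hv3

end Pool.Agent.Work.MPfaea85
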